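import Pool.Agent.X90.DB.Cnt
import Pool.Agent.X90.DA.Main2

/-!
# Polynomials in multiple zeta values
-/

set_option autoImplicit false

namespace Pool.Agent.X90.DB

open Finset Pool.Agent.Y760.ZF
open Pool.Agent.Y760.ZG (mz)

/-- admissible indices -/
def Ad : List ℕ → Prop
  | [] => False
  | s :: l => 2 ≤ s ∧ ∀ t ∈ l, 1 ≤ t

lemma Ad.pos {u : List ℕ} (h : Ad u) : ∀ t ∈ u, 1 ≤ t := by
  cases u with
  | nil => exact h.elim
  | cons s l =>
    intro t ht
    rcases List.mem_cons.1 ht with rfl | ht
    · exact le_trans (by norm_num) h.1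
    · exact h.2 t ht

lemma ad_sti {u v : List ℕ} (hu : Ad u) (hv : Ad v) : ∀ x ∈ sti u v, Ad x := by
  have hpos : ∀ x ∈ sti u v, ∀ t ∈ x, 1 ≤ t := by
    intro x hx t ht
    rcases sti_mem (L := {a | 1 ≤ a}) (L' := {a | 1 ≤ a}) u v hu.pos hv.pos x hx t ht with
      h | h | ⟨b, hb, c, _, rfl⟩
    · exact h
    · exact h
    · exact le_trans hb (Nat.le_add_right _ _)
  cases u with
  | nil => exact hu.elim
  | cons i k =>
    cases v with
    | nil => exact hv.elim
    | cons j l =>
      intro x hx
      have h1 := hpos x hx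
      rw [sti, List.mem_append, List.mem_append, List.mem_map, List.mem_map, List.mem_map] at hx
      rcases hx with (⟨w', _, rfl⟩ | ⟨w', _, rfl⟩) | ⟨w', _, rfl⟩
      · exact ⟨hu.1, fun t ht => h1 t (List.mem_cons_of_mem _ ht)⟩
      · exact ⟨hv.1, fun t ht => h1 t (List.mem_cons_of_mem _ ht)⟩
      · exact ⟨le_trans hu.1 (Nat.le_add_right _ _), fun t ht => h1 t (List.mem_cons_of_mem _ ht)⟩

lemma ad_ne {u : List ℕ} (h : Ad u) : u ≠ [] := by
  rintro rfl
  exact h

section

variable {A : Type} [CommRing A]

/-- the extension to the empty index -/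
noncomputable def ex (Z : List ℕ → A) (u : List ℕ) : A := by
  classical
  exact if u = [] then 1 else Z u

lemma ex_nil (Z : List ℕ → A) : ex Z [] = 1 := by
  unfold ex
  rw [if_pos rfl]

lemma ex_ne (Z : List ℕ → A) {u : List ℕ} (hu : u ≠ []) : ex Z u = Z u := by
  unfold ex
  rw [if_neg hu]

lemma ex_mul {Z : List ℕ → A} (hZ : ∀ u v, Ad u → Ad v → Z u * Z v = ((sti u v).map Z).sum)
    {u v : List ℕ} (hu : Ad u) (hv : v = [] ∨ Ad v) :
    ex Z u * ex Z v = ((sti u v).map (ex Z)).sum := by
  rcases hv with rfl | hv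
  · rw [ex_nil, mul_one]
    cases u with
    | nil => exact hu.elim
    | cons x u =>
      rw [sti]
      simp
  · rw [ex_ne Z (ad_ne hu), ex_ne Z (ad_ne hv), hZ u v hu hv]
    congr 1
    exact List.map_congr_left fun t ht => (ex_ne Z (ad_ne (ad_sti hu hv t ht))).symm

lemma stil_ad (M : List (List ℕ)) (hM : ∀ u ∈ M, Ad u) : ∀ x ∈ stil M, x = [] ∨ Ad x := by
  induction M with
  | nil =>
    intro x hx
    rw [stil, List.mem_singleton] at hx
    exact Or.inl hx
  | cons u M ih =>
    intro x hx
    rw [stil, List.mem_flatMap] at hx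
    obtain ⟨v, hv, hx⟩ := hx
    have hu := hM u List.mem_cons_self
    rcases ih (fun u hu => hM u (List.mem_cons_of_mem _ hu)) v hv with rfl | h
    · cases u with
      | nil => exact hu.elim
      | cons i k =>
        rw [sti, List.mem_singleton] at hx
        subst hx
        exact Or.inr hu
    · exact Or.inr (ad_sti hu h x hx)

lemma prod_ex {Z : List ℕ → A} (hZ : ∀ u v, Ad u → Ad v → Z u * Z v = ((sti u v).map Z).sum)
    (M : List (List ℕ)) (hM : ∀ u ∈ M, Ad u) :
    (M.map (ex Z)).prod = ((stil M).map (ex Z)).sum := by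
  induction M with
  | nil =>
    rw [stil]
    simp [ex_nil]
  | cons u M ih =>
    have hM' : ∀ u ∈ M, Ad u := fun u hu => hM u (List.mem_cons_of_mem _ hu)
    rw [List.map_cons, List.prod_cons, ih hM', stil]
    have h3 := stil_ad M hM'
    have hu := hM u List.mem_cons_self
    clear ih
    revert h3
    generalize stil M = T
    intro h3
    induction T with
    | nil => simp
    | cons v T ih2 =>
      rw [List.map_cons, List.sum_cons, mul_add, List.flatMap_cons, List.map_append,
        List.sum_append, ih2 fun v' hv' => h3 v' (List.mem_cons_of_mem _ hv')]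
      congr 1
      exact ex_mul hZ hu (h3 v List.mem_cons_self)

lemma list_countA (L : List (List ℕ)) (F : List ℕ → A) (s : Finset (List ℕ)) (hs : ∀ w ∈ L, w ∈ s) :
    (L.map F).sum = ∑ w ∈ s, ((L.countP (· = w) : ℕ) : A) * F w := by
  induction L with
  | nil => simp
  | cons a L ih =>
    rw [List.map_cons, List.sum_cons, ih fun w hw => hs w (List.mem_cons_of_mem _ hw)]
    have h1 : ∀ w, (((a :: L).countP (· = w) : ℕ) : A) * F w =
        ((L.countP (· = w) : ℕ) : A) * F w + if a = w then F w else 0 := by
      intro w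
      rw [List.countP_cons]
      by_cases h : a = w
      · simp only [h, decide_true, if_true]
        push_cast
        ring
      · simp only [h, decide_false, if_false, Bool.false_eq_true]
        push_cast
        ring
    simp only [h1]
    rw [Finset.sum_add_distrib, Finset.sum_ite_eq, if_pos (hs a List.mem_cons_self), add_comm]

/-- the list of the words of a monomial -/
def lst {r : ℕ} (w : Fin r → List ℕ) (m : Fin r → ℕ) : List (List ℕ) :=
  (List.finRange r).flatMap fun i => List.replicate (m i) (w i)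

lemma mem_lst {r : ℕ} {w : Fin r → List ℕ} {m : Fin r → ℕ} {u : List ℕ}
    (h : u ∈ lst w m) : ∃ i, u = w i := by
  rw [lst, List.mem_flatMap] at h
  obtain ⟨i, -, hi⟩ := h
  exact ⟨i, List.eq_of_mem_replicate hi⟩

lemma prod_lst {r : ℕ} (w : Fin r → List ℕ) (m : Fin r → ℕ) (F : List ℕ → A) :
    ((lst w m).map F).prod = ∏ i, F (w i) ^ m i := by
  rw [lst, List.map_flatMap]
  have h1 : ∀ L : List (Fin r), (L.flatMap fun i => (List.replicate (m i) (w i)).map F).prod =
      (L.map fun i => F (w i) ^ m i).prod := by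
    intro L
    induction L with
    | nil => simp
    | cons a L ih =>
      rw [List.flatMap_cons, List.prod_append, ih, List.map_cons, List.prod_cons,
        List.map_replicate, List.prod_replicate]
  rw [h1, Fin.prod_univ_def]

end

lemma length_lst {r : ℕ} (w : Fin r → List ℕ) (m : Fin r → ℕ) : (lst w m).length = ∑ i, m i := by
  have h1 : ∀ L : List (Fin r), (L.flatMap fun i => List.replicate (m i) (w i)).length =
      (L.map fun i => m i).sum := by
    intro L
    induction L with
    | nil => simp
    | cons a L ih =>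
      rw [List.flatMap_cons, List.length_append, ih, List.map_cons, List.sum_cons,
        List.length_replicate]
  rw [lst, h1, Fin.sum_univ_def]

lemma stil_Lt {k K : ℕ} {s : Fin k → ℕ} (M : List (List ℕ)) (hM : ∀ u ∈ M, ∀ a ∈ u, a ∈ Lt K s) :
    ∀ x ∈ stil M, ∀ a ∈ x, a ∈ Lt (M.length * K) s := by
  induction M with
  | nil =>
    intro x hx a ha
    rw [stil, List.mem_singleton] at hx
    subst hx
    exact absurd ha List.not_mem_nil
  | cons u M ih =>
    intro x hx a ha
    rw [stil, List.mem_flatMap] at hx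
    obtain ⟨v, hv, hx⟩ := hx
    have h1 := ih (fun u hu => hM u (List.mem_cons_of_mem _ hu)) v hv
    have e : (u :: M).length * K = K + M.length * K := by
      rw [List.length_cons, Nat.succ_mul, add_comm]
    rw [e]
    rcases sti_mem u v (hM u List.mem_cons_self) h1 x hx a ha with h | h | ⟨b, hb, c, hc, rfl⟩
    · exact Lt_mono (Nat.le_add_right _ _) s h
    · exact Lt_mono (Nat.le_add_left _ _) s h
    · exact Lt_add hb hc

/-- the index of a word -/
def ix {k : ℕ} (s : Fin k → ℕ) (w : List (ℕ × (Fin k → ℕ))) : List ℕ :=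
  w.map fun u => u.1 + ∑ j, u.2 j * s j

end Pool.Agent.X90.DB
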