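import Pool.Agent.X90.DB.Many

/-!
# Tuples in general position
-/

set_option autoImplicit false

namespace Pool.Agent.X90.DB

open Finset

/-- no small affine relation between the coordinates of the tuples -/
def GT {I : Type} [Fintype I] {k : ℕ} (Q : ℕ) (s : I → Fin k → ℕ) : Prop :=
  ∀ (c0 : ℤ) (c : I → Fin k → ℤ), c ≠ 0 → |c0| ≤ Q → (∀ i j, |c i j| ≤ Q) →
    c0 + ∑ i, ∑ j, c i j * (s i j : ℤ) ≠ 0

/-- the letters -/
def Lt {k : ℕ} (K : ℕ) (s : Fin k → ℕ) : Set ℕ :=
  {a | ∃ (b : ℕ) (u : Fin k → ℕ), b ≤ K ∧ (∀ j, u j ≤ K) ∧ u ≠ 0 ∧ a = b + ∑ j, u j * s j}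

lemma Lt_mono {k : ℕ} {K K' : ℕ} (h : K ≤ K') (s : Fin k → ℕ) : Lt K s ⊆ Lt K' s := by
  rintro a ⟨b, u, hb, hu, hne, ha⟩
  exact ⟨b, u, hb.trans h, fun j => (hu j).trans h, hne, ha⟩

lemma Lt_add {k : ℕ} {K K' : ℕ} {s : Fin k → ℕ} {a a' : ℕ} (h : a ∈ Lt K s) (h' : a' ∈ Lt K' s) :
    a + a' ∈ Lt (K + K') s := by
  obtain ⟨b, u, hb, hu, hne, rfl⟩ := h
  obtain ⟨b', u', hb', hu', _, rfl⟩ := h'
  refine ⟨b + b', u + u', by omega, fun j => ?_, ?_, ?_⟩
  · rw [Pi.add_apply]
    exact Nat.add_le_add (hu j) (hu' j)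
  · intro h0
    apply hne
    funext j
    have := congrFun h0 j
    simp only [Pi.add_apply, Pi.zero_apply] at this ⊢
    omega
  · simp only [Pi.add_apply, add_mul]
    rw [sum_add_distrib]
    ring

lemma Lt_ge {k : ℕ} {K n : ℕ} {s : Fin k → ℕ} (hs : ∀ j, n ≤ s j) {a : ℕ} (h : a ∈ Lt K s) :
    n ≤ a := by
  obtain ⟨b, u, _, _, hne, rfl⟩ := h
  obtain ⟨j, hj⟩ : ∃ j, u j ≠ 0 := by
    by_contra hcon
    push Not at hcon
    exact hne (funext hcon)
  have h1 : u j * s j ≤ ∑ j, u j * s j :=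
    single_le_sum (f := fun j => u j * s j) (fun _ _ => Nat.zero_le _) (mem_univ j)
  have h2 : s j ≤ u j * s j := Nat.le_mul_of_pos_left _ (Nat.pos_of_ne_zero hj)
  have := hs j
  omega

lemma Lt_zero {k : ℕ} {K : ℕ} {s : Fin k → ℕ} (hs : ∀ j, 1 ≤ s j) : (0 : ℕ) ∉ Lt K s := fun h => by
  have := Lt_ge hs h
  omega

/-- tuples in general position have letters in general position -/
lemma GT.gp {I : Type} [Fintype I] {k : ℕ} {Q K : ℕ} {s : I → Fin k → ℕ} (h : GT Q s)
    (hQ : Fintype.card I * K ≤ Q) (hK : K ≤ Q) (hs : ∀ i j, 1 ≤ s i j) :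
    GP (fun i => Lt K (s i)) := by
  classical
  intro f g hf hg hsum i hi
  have key : ∀ f : I → ℕ, (∀ i, f i = 0 ∨ f i ∈ Lt K (s i)) →
      ∃ (b : I → ℕ) (u : I → Fin k → ℕ), (∀ i, b i ≤ K) ∧ (∀ i j, u i j ≤ K) ∧
        (∀ i, f i = b i + ∑ j, u i j * s i j) ∧ ∀ i, f i = 0 ↔ u i = 0 := by
    intro f hf
    have h1 : ∀ i, ∃ (b : ℕ) (u : Fin k → ℕ), b ≤ K ∧ (∀ j, u j ≤ K) ∧
        f i = b + ∑ j, u j * s i j ∧ (f i = 0 ↔ u = 0) := by
      intro i
      by_cases h0 : f i = 0
      · exact ⟨0, 0, Nat.zero_le _, fun _ => Nat.zero_le _, by simp [h0], by simp [h0]⟩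
      · obtain ⟨b, u, hb, hu, hne, ha⟩ := (hf i).resolve_left h0
        exact ⟨b, u, hb, hu, ha, iff_of_false h0 hne⟩
    choose b u h2 h3 h4 h5 using h1
    exact ⟨b, u, h2, h3, h4, h5⟩
  obtain ⟨b, u, hb, hu, hfb, hfu⟩ := key f hf
  obtain ⟨b', u', hb', hu', hgb, hgu⟩ := key g hg
  by_contra hgi
  have hne : (fun i j => ((u i j : ℕ) : ℤ) - (u' i j : ℕ)) ≠ (0 : I → Fin k → ℤ) := by
    intro h0
    apply hgi
    rw [hgu i]
    funext j
    have h1 := congrFun (congrFun h0 i) j
    simp only [Pi.zero_apply] at h1 ⊢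
    have h2 := congrFun ((hfu i).1 hi) j
    rw [Pi.zero_apply] at h2
    omega
  refine h (∑ i, (((b i : ℕ) : ℤ) - (b' i : ℕ))) _ hne ?_ (fun i j => ?_) ?_
  · refine (abs_sum_le_sum_abs _ _).trans ?_
    calc ∑ i, |((b i : ℕ) : ℤ) - (b' i : ℕ)| ≤ ∑ _i : I, (K : ℤ) := by
          refine sum_le_sum fun i _ => ?_
          have := hb i
          have := hb' i
          rw [abs_le]
          constructor <;> omega
      _ = (Fintype.card I * K : ℕ) := by
          rw [sum_const, card_univ, nsmul_eq_mul]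
          push_cast
          ring
      _ ≤ Q := by exact_mod_cast hQ
  · have := hu i j
    have := hu' i j
    rw [abs_le]
    constructor <;> omega
  · have h1 : ((∑ i, f i : ℕ) : ℤ) = ((∑ i, g i : ℕ) : ℤ) := by rw [hsum]
    simp only [hfb, hgb] at h1
    push_cast at h1
    rw [sum_add_distrib, sum_add_distrib] at h1
    rw [sum_sub_distrib]
    have h2 : ∑ i, ∑ j, ((((u i j : ℕ) : ℤ) - (u' i j : ℕ)) * (s i j : ℤ)) =
        ∑ i, ∑ j, ((u i j : ℕ) : ℤ) * (s i j : ℤ) - ∑ i, ∑ j, ((u' i j : ℕ) : ℤ) * (s i j : ℤ) := by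
      rw [← sum_sub_distrib]
      refine sum_congr rfl fun i _ => ?_
      rw [← sum_sub_distrib]
      exact sum_congr rfl fun j _ => by ring
    rw [h2]
    linarith

/-- the points of a hyperplane -/
lemma card_plane {k : ℕ} (N N' : ℕ) (u : Fin k → ℤ) (hu : u ≠ 0) (c : ℤ) :
    (((Fintype.piFinset fun _ : Fin k => Finset.Icc N N').filter fun s =>
      ∑ j, u j * (s j : ℤ) = c).card) ≤ (N' + 1 - N) ^ (k - 1) := by
  classical
  obtain ⟨i0, hi0⟩ : ∃ i, u i ≠ 0 := by
    by_contra h
    push Not at h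
    exact hu (funext h)
  set T := (Fintype.piFinset fun _ : Fin k => Finset.Icc N N').filter fun s =>
      ∑ j, u j * (s j : ℤ) = c with hT
  set g : (Fin k → ℕ) → (Fin k → ℕ) := fun s => Function.update s i0 0 with hg
  have hinj : Set.InjOn g (T : Set (Fin k → ℕ)) := by
    intro s hs s' hs' hss
    rw [mem_coe, hT, mem_filter] at hs hs'
    have hoff : ∀ i, i ≠ i0 → s i = s' i := by
      intro i hi
      have h1 : g s i = g s' i := by rw [hss]
      simpa only [hg, Function.update_of_ne hi] using h1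
    funext i
    by_cases hi : i = i0
    · subst hi
      have h1 := hs.2.trans hs'.2.symm
      rw [← add_sum_erase _ _ (mem_univ i), ← add_sum_erase _ _ (mem_univ i),
        sum_congr rfl fun j hj => by rw [hoff j (ne_of_mem_erase hj)]] at h1
      have h2 : u i * (s i : ℤ) = u i * (s' i : ℤ) := by linarith
      exact_mod_cast mul_left_cancel₀ hi0 h2
    · exact hoff i hi
  rw [← card_image_of_injOn hinj]
  have h1 : T.image g ⊆ Fintype.piFinset fun i => if i = i0 then {0} else Finset.Icc N N' := by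
    intro t ht
    obtain ⟨s, hs, rfl⟩ := mem_image.1 ht
    rw [Fintype.mem_piFinset]
    intro i
    rw [hT, mem_filter, Fintype.mem_piFinset] at hs
    by_cases hi : i = i0
    · subst hi
      simp [hg]
    · simp only [hg, Function.update_of_ne hi, if_neg hi]
      exact hs.1 i
  refine (card_le_card h1).trans ?_
  rw [Fintype.card_piFinset]
  have h2 : ∀ i, (if i = i0 then ({0} : Finset ℕ) else Finset.Icc N N').card =
      if i = i0 then 1 else (N' + 1 - N) := by
    intro i
    split_ifs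
    · simp
    · rw [Nat.card_Icc]
  simp only [h2]
  rw [prod_ite, prod_const_one, one_mul, prod_const]
  have h3 : (univ.filter fun i : Fin k => ¬ i = i0).card = k - 1 := by
    rw [filter_not, filter_eq' univ i0, if_pos (mem_univ _), card_sdiff_of_subset
      (subset_univ _), card_univ, card_singleton, Fintype.card_fin]
  rw [h3]

/-- **few tuples without general position** -/
theorem card_noGT {k : ℕ} (Q N N' : ℕ) (B : Finset (Fin k → ℕ))
    (hB : B ⊆ Fintype.piFinset fun _ : Fin k => Finset.Icc N N') :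
    ∀ m : ℕ, (∀ s : Fin m → Fin k → ℕ, (∀ i, s i ∈ B) → ¬ GT Q s) →
      B.card ≤ (2 * Q + 1) ^ (1 + m * k) * (N' + 1 - N) ^ (k - 1) := by
  classical
  intro m
  induction m with
  | zero =>
    intro h
    exfalso
    refine h (fun i => i.elim0) (fun i => i.elim0) fun c0 c hc => ?_
    exact absurd (Subsingleton.elim c 0) hc
  | succ m ih =>
    intro h
    by_cases hm : ∀ s : Fin m → Fin k → ℕ, (∀ i, s i ∈ B) → ¬ GT Q s
    · refine (ih hm).trans (Nat.mul_le_mul_right _ (Nat.pow_le_pow_right (by omega) ?_))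
      exact Nat.add_le_add_left (Nat.mul_le_mul_right _ (Nat.le_succ m)) 1
    · push Not at hm
      obtain ⟨s, hsB, hs⟩ := hm
      -- the index set of the hyperplanes
      set U : Finset (ℤ × (Fin (m + 1) → Fin k → ℤ)) :=
        (Finset.Icc (-(Q : ℤ)) Q) ×ˢ (Fintype.piFinset fun _ : Fin (m + 1) =>
          Fintype.piFinset fun _ : Fin k => Finset.Icc (-(Q : ℤ)) Q) with hU
      have hUc : U.card = (2 * Q + 1) ^ (1 + (m + 1) * k) := by
        rw [hU, card_product, Fintype.card_piFinset, prod_const, Fintype.card_piFinset, prod_const,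
          card_univ, card_univ, Fintype.card_fin, Fintype.card_fin, Int.card_Icc]
        have h1 : ((Q : ℤ) + 1 - -(Q : ℤ)).toNat = 2 * Q + 1 := by omega
        rw [h1, ← pow_mul, pow_add, pow_one, mul_comm k (m + 1)]
      have hsub : B ⊆ (U.filter fun p => p.2 (Fin.last m) ≠ 0).biUnion fun p =>
          (Fintype.piFinset fun _ : Fin k => Finset.Icc N N').filter fun t =>
            ∑ j, p.2 (Fin.last m) j * (t j : ℤ) =
              -(p.1 + ∑ i : Fin m, ∑ j, p.2 i.castSucc j * (s i j : ℤ)) := by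
        intro t ht
        have h1 := h (Fin.snoc s t) (fun i => by
          refine Fin.lastCases ?_ (fun i => ?_) i
          · rw [Fin.snoc_last]
            exact ht
          · rw [Fin.snoc_castSucc]
            exact hsB i)
        rw [GT] at h1
        push Not at h1
        obtain ⟨c0, c, hc, hc0, hcQ, hrel⟩ := h1
        rw [Fin.sum_univ_castSucc] at hrel
        simp only [Fin.snoc_castSucc, Fin.snoc_last] at hrel
        have hlast : c (Fin.last m) ≠ 0 := by
          intro h0
          refine hs c0 (fun i => c i.castSucc) ?_ hc0 (fun i j => hcQ _ j) ?_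
          · intro h2
            apply hc
            funext i
            refine Fin.lastCases ?_ (fun i => ?_) i
            · exact h0
            · exact congrFun h2 i
          · rw [h0] at hrel
            simp only [Pi.zero_apply, zero_mul, sum_const_zero, add_zero] at hrel
            exact hrel
        rw [mem_biUnion]
        refine ⟨(c0, c), ?_, ?_⟩
        · rw [mem_filter, hU, mem_product, Fintype.mem_piFinset]
          refine ⟨⟨mem_Icc.2 (abs_le.1 hc0), fun i => ?_⟩, hlast⟩
          rw [Fintype.mem_piFinset]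
          exact fun j => mem_Icc.2 (abs_le.1 (hcQ i j))
        · rw [mem_filter]
          refine ⟨hB ht, ?_⟩
          simp only
          linarith
      calc B.card ≤ _ := card_le_card hsub
        _ ≤ ∑ p ∈ U.filter fun p => p.2 (Fin.last m) ≠ 0, (N' + 1 - N) ^ (k - 1) := by
            refine card_biUnion_le.trans (sum_le_sum fun p hp => ?_)
            rw [mem_filter] at hp
            exact card_plane N N' _ hp.2 _
        _ = (U.filter fun p => p.2 (Fin.last m) ≠ 0).card * (N' + 1 - N) ^ (k - 1) := by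
            rw [sum_const, smul_eq_mul]
        _ ≤ U.card * (N' + 1 - N) ^ (k - 1) :=
            Nat.mul_le_mul_right _ (card_le_card (filter_subset _ _))
        _ = _ := by rw [hUc]

end Pool.Agent.X90.DB
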