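import Pool.Agent.Y760.ZF.Prod

/-!
# Stuffle products of words in separate letters
-/

set_option autoImplicit false

namespace Pool.Agent.X90.DB

open Finset Pool.Agent.Y760.ZF

/-- the two sets of letters and their sums are separate -/
def Sep (L L' : Set ℕ) : Prop :=
  (∀ a ∈ L, a ∉ L') ∧ ∀ a ∈ L, ∀ b ∈ L', a + b ∉ L ∧ a + b ∉ L'

open Classical in
/-- a word of the stuffle product without merged letters is a shuffle -/
lemma sti_filter {L L' : Set ℕ} (hs : Sep L L') (u v : List ℕ) :
    (∀ a ∈ u, a ∈ L) → (∀ a ∈ v, a ∈ L') → ∀ x ∈ sti u v, (∀ a ∈ x, a ∈ L ∨ a ∈ L') →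
      x.filter (· ∈ L) = u ∧ x.filter (· ∈ L') = v := by
  induction u, v using sti.induct with
  | case1 v =>
    intro _ hv x hx _
    rw [sti, List.mem_singleton] at hx
    subst hx
    constructor
    · rw [List.filter_eq_nil_iff]
      intro a ha
      simp only [decide_eq_true_eq]
      exact fun h => hs.1 a h (hv a ha)
    · rw [List.filter_eq_self]
      intro a ha
      simpa using hv a ha
  | case2 i k =>
    intro hu _ x hx _
    rw [sti, List.mem_singleton] at hx
    subst hx
    constructor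
    · rw [List.filter_eq_self]
      intro a ha
      simpa using hu a ha
    · rw [List.filter_eq_nil_iff]
      intro a ha
      simp only [decide_eq_true_eq]
      exact hs.1 a (hu a ha)
  | case3 i k j l ih1 ih2 ih3 =>
    intro hu hv x hx hL
    have hi : i ∈ L := hu i List.mem_cons_self
    have hj : j ∈ L' := hv j List.mem_cons_self
    have hi' : i ∉ L' := hs.1 i hi
    have hj' : j ∉ L := fun h => hs.1 j h hj
    rw [sti, List.mem_append, List.mem_append, List.mem_map, List.mem_map, List.mem_map] at hx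
    rcases hx with (⟨x', hx', rfl⟩ | ⟨x', hx', rfl⟩) | ⟨x', hx', rfl⟩
    · obtain ⟨h1, h2⟩ := ih1 (fun a ha => hu a (List.mem_cons_of_mem _ ha)) hv x' hx'
        (fun a ha => hL a (List.mem_cons_of_mem _ ha))
      rw [List.filter_cons_of_pos (by simpa using hi), List.filter_cons_of_neg (by simpa using hi'),
        h1, h2]
      exact ⟨rfl, rfl⟩
    · obtain ⟨h1, h2⟩ := ih2 hu (fun a ha => hv a (List.mem_cons_of_mem _ ha)) x' hx'
        (fun a ha => hL a (List.mem_cons_of_mem _ ha))
      rw [List.filter_cons_of_neg (by simpa using hj'), List.filter_cons_of_pos (by simpa using hj),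
        h1, h2]
      exact ⟨rfl, rfl⟩
    · exfalso
      have h1 := hL (i + j) List.mem_cons_self
      have h2 := hs.2 i hi j hj
      exact h1.elim h2.1 h2.2

/-- the concatenation occurs -/
lemma append_mem_sti (u v : List ℕ) : u ++ v ∈ sti u v := by
  induction u with
  | nil =>
    cases v <;> · rw [sti, List.nil_append]; exact List.mem_singleton_self _
  | cons i k ih =>
    cases v with
    | nil => rw [sti, List.append_nil]; exact List.mem_singleton_self _
    | cons j l =>
      rw [sti, List.cons_append, List.mem_append, List.mem_append]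
      exact Or.inl (Or.inl (List.mem_map_of_mem ih))

/-- the concatenation determines the factors -/
lemma append_sti {L L' : Set ℕ} (hs : Sep L L') {u v u' v' : List ℕ} (hu : ∀ a ∈ u, a ∈ L)
    (hv : ∀ a ∈ v, a ∈ L') (hu' : ∀ a ∈ u', a ∈ L) (hv' : ∀ a ∈ v', a ∈ L')
    (h : u ++ v ∈ sti u' v') : u' = u ∧ v' = v := by
  classical
  obtain ⟨h1, h2⟩ := sti_filter hs u' v' hu' hv' (u ++ v) h (fun a ha => by
    rcases List.mem_append.1 ha with h | h
    · exact Or.inl (hu a h)
    · exact Or.inr (hv a h))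
  rw [← h1, ← h2, List.filter_append, List.filter_append]
  have e1 : u.filter (· ∈ L) = u := by
    rw [List.filter_eq_self]
    intro a ha
    simpa using hu a ha
  have e2 : v.filter (· ∈ L) = [] := by
    rw [List.filter_eq_nil_iff]
    intro a ha
    simp only [decide_eq_true_eq]
    exact fun h => hs.1 a h (hv a ha)
  have e3 : u.filter (· ∈ L') = [] := by
    rw [List.filter_eq_nil_iff]
    intro a ha
    simp only [decide_eq_true_eq]
    exact hs.1 a (hu a ha)
  have e4 : v.filter (· ∈ L') = v := by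
    rw [List.filter_eq_self]
    intro a ha
    simpa using hv a ha
  rw [e1, e2, e3, e4, List.append_nil, List.nil_append]
  exact ⟨rfl, rfl⟩

/-- letters of the stuffle product -/
lemma sti_mem {L L' : Set ℕ} (u v : List ℕ) : (∀ a ∈ u, a ∈ L) → (∀ a ∈ v, a ∈ L') →
    ∀ x ∈ sti u v, ∀ a ∈ x, a ∈ L ∨ a ∈ L' ∨ ∃ b ∈ L, ∃ c ∈ L', a = b + c := by
  induction u, v using sti.induct with
  | case1 v =>
    intro _ hv x hx a ha
    rw [sti, List.mem_singleton] at hx
    subst hx
    exact Or.inr (Or.inl (hv a ha))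
  | case2 i k =>
    intro hu _ x hx a ha
    rw [sti, List.mem_singleton] at hx
    subst hx
    exact Or.inl (hu a ha)
  | case3 i k j l ih1 ih2 ih3 =>
    intro hu hv x hx a ha
    rw [sti, List.mem_append, List.mem_append, List.mem_map, List.mem_map, List.mem_map] at hx
    rcases hx with (⟨x', hx', rfl⟩ | ⟨x', hx', rfl⟩) | ⟨x', hx', rfl⟩
    · rcases List.mem_cons.1 ha with rfl | ha
      · exact Or.inl (hu a List.mem_cons_self)
      · exact ih1 (fun a ha => hu a (List.mem_cons_of_mem _ ha)) hv x' hx' a ha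
    · rcases List.mem_cons.1 ha with rfl | ha
      · exact Or.inr (Or.inl (hv a List.mem_cons_self))
      · exact ih2 hu (fun a ha => hv a (List.mem_cons_of_mem _ ha)) x' hx' a ha
    · rcases List.mem_cons.1 ha with rfl | ha
      · exact Or.inr (Or.inr ⟨i, hu i List.mem_cons_self, j, hv j List.mem_cons_self, rfl⟩)
      · exact ih3 (fun a ha => hu a (List.mem_cons_of_mem _ ha))
          (fun a ha => hv a (List.mem_cons_of_mem _ ha)) x' hx' a ha

/-- **general position**: sums of letters in different sets of indices are different -/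
def GP {I : Type} [Fintype I] (L : I → Set ℕ) : Prop :=
  ∀ f g : I → ℕ, (∀ i, f i = 0 ∨ f i ∈ L i) → (∀ i, g i = 0 ∨ g i ∈ L i) →
    ∑ i, f i = ∑ i, g i → ∀ i, f i = 0 → g i = 0

lemma GP.comp {I J : Type} [Fintype I] [DecidableEq I] [Fintype J] {L : I → Set ℕ} (h : GP L)
    (φ : J → I) (hφ : Function.Injective φ) : GP (fun j => L (φ j)) := by
  classical
  intro f g hf hg hsum j hj
  let F : (J → ℕ) → I → ℕ := fun f i => if h : ∃ j, φ j = i then f h.choose else 0
  have hF : ∀ (f : J → ℕ) j, F f (φ j) = f j := by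
    intro f j
    have h1 : ∃ j', φ j' = φ j := ⟨j, rfl⟩
    simp only [F, dif_pos h1]
    rw [hφ h1.choose_spec]
  have hF0 : ∀ (f : J → ℕ) i, (¬ ∃ j, φ j = i) → F f i = 0 := by
    intro f i hi
    simp only [F, dif_neg hi]
  have hsumF : ∀ f : J → ℕ, ∑ i, F f i = ∑ j, f j := by
    intro f
    rw [← sum_image (s := univ) (g := φ) (f := F f) (fun x _ y _ hxy => hφ hxy) |>.trans
      (sum_congr rfl fun j _ => hF f j)]
    symm
    refine sum_subset (subset_univ _) fun i _ hi => hF0 f i ?_
    rintro ⟨j, rfl⟩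
    exact hi (mem_image_of_mem φ (mem_univ j))
  have hmem : ∀ f : J → ℕ, (∀ j, f j = 0 ∨ f j ∈ L (φ j)) → ∀ i, F f i = 0 ∨ F f i ∈ L i := by
    intro f hf i
    by_cases hi : ∃ j, φ j = i
    · obtain ⟨j, rfl⟩ := hi
      rw [hF]
      exact hf j
    · exact Or.inl (hF0 f i hi)
  have h2 := h (F f) (F g) (hmem f hf) (hmem g hg) (by rw [hsumF, hsumF, hsum]) (φ j)
    (by rw [hF]; exact hj)
  rwa [hF] at h2

/-- the letters of the products -/
def mrg (L L' : Set ℕ) : Set ℕ := {a | a ∈ L ∨ a ∈ L' ∨ ∃ b ∈ L, ∃ c ∈ L', a = b + c}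

/-- merging pairs -/
lemma GP.pair {J : Type} [Fintype J] {L : J × Bool → Set ℕ} (h : GP L)
    (hpos : ∀ i, (0 : ℕ) ∉ L i) : GP (fun j => mrg (L (j, false)) (L (j, true))) := by
  classical
  intro f g hf hg hsum j hj
  have key : ∀ f : J → ℕ, (∀ j, f j = 0 ∨ f j ∈ mrg (L (j, false)) (L (j, true))) →
      ∃ F : J × Bool → ℕ, (∀ i, F i = 0 ∨ F i ∈ L i) ∧ ∀ j, F (j, false) + F (j, true) = f j := by
    intro f hf
    have h1 : ∀ j, ∃ p : ℕ × ℕ, (p.1 = 0 ∨ p.1 ∈ L (j, false)) ∧ (p.2 = 0 ∨ p.2 ∈ L (j, true)) ∧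
        p.1 + p.2 = f j := by
      intro j
      rcases hf j with h0 | h0 | h0 | ⟨b, hb, c, hc, h0⟩
      · exact ⟨(0, 0), Or.inl rfl, Or.inl rfl, by simp [h0]⟩
      · exact ⟨(f j, 0), Or.inr h0, Or.inl rfl, rfl⟩
      · exact ⟨(0, f j), Or.inl rfl, Or.inr h0, Nat.zero_add _⟩
      · exact ⟨(b, c), Or.inr hb, Or.inr hc, h0.symm⟩
    choose p hp1 hp2 hp3 using h1
    refine ⟨fun i => if i.2 then (p i.1).2 else (p i.1).1, fun i => ?_, fun j => ?_⟩
    · obtain ⟨j, b⟩ := i
      cases b
      · simpa using hp1 j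
      · simpa using hp2 j
    · simpa using hp3 j
  obtain ⟨F, hF1, hF2⟩ := key f hf
  obtain ⟨G, hG1, hG2⟩ := key g hg
  have hs : ∀ F : J × Bool → ℕ, ∑ i, F i = ∑ j, (F (j, false) + F (j, true)) := by
    intro F
    rw [Fintype.sum_prod_type]
    refine sum_congr rfl fun j _ => ?_
    rw [Fintype.sum_bool, add_comm]
  have h2 := h F G hF1 hG1 (by
    rw [hs, hs]
    simp only [hF2, hG2]
    exact hsum)
  have h3 := hF2 j
  rw [hj] at h3
  rw [← hG2 j, h2 (j, false) (by omega), h2 (j, true) (by omega)]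

/-- two members are separate -/
lemma GP.sep {I : Type} [Fintype I] [DecidableEq I] {L : I → Set ℕ} (h : GP L)
    (hpos : ∀ i, (0 : ℕ) ∉ L i) {i j : I} (hij : i ≠ j) : Sep (L i) (L j) := by
  classical
  have hne : ∀ {k a}, a ∈ L k → a ≠ 0 := fun {k a} ha h0 => hpos k (h0 ▸ ha)
  have hsingle : ∀ (k : I) (a : ℕ), a ∈ L k → ∀ i', (Pi.single k a : I → ℕ) i' = 0 ∨
      (Pi.single k a : I → ℕ) i' ∈ L i' := by
    intro k a ha i'
    by_cases hk : i' = k
    · subst hk
      rw [Pi.single_eq_same]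
      exact Or.inr ha
    · rw [Pi.single_eq_of_ne hk]
      exact Or.inl rfl
  have hsum1 : ∀ (k : I) (a : ℕ), ∑ i', (Pi.single k a : I → ℕ) i' = a := by
    intro k a
    rw [sum_eq_single k]
    · rw [Pi.single_eq_same]
    · intro b _ hb
      rw [Pi.single_eq_of_ne hb]
    · intro h
      exact absurd (mem_univ _) h
  have hadd : ∀ a ∈ L i, ∀ b ∈ L j, ∀ i', ((Pi.single i a : I → ℕ) + (Pi.single j b : I → ℕ)) i' = 0 ∨
      ((Pi.single i a : I → ℕ) + (Pi.single j b : I → ℕ)) i' ∈ L i' := by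
    intro a ha b hb i'
    rw [Pi.add_apply]
    by_cases hi : i' = i
    · subst hi
      rw [Pi.single_eq_same, Pi.single_eq_of_ne hij, add_zero]
      exact Or.inr ha
    · rw [Pi.single_eq_of_ne hi, zero_add]
      exact hsingle j b hb i'
  constructor
  · intro a ha ha'
    have h1 := h _ _ (hsingle i a ha) (hsingle j a ha') (by rw [hsum1, hsum1]) j
      (Pi.single_eq_of_ne (Ne.symm hij) _)
    rw [Pi.single_eq_same] at h1
    exact hne ha h1
  · intro a ha b hb
    have hs : ∑ i', ((Pi.single i a : I → ℕ) + (Pi.single j b : I → ℕ)) i' = a + b := by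
      simp only [Pi.add_apply]
      rw [sum_add_distrib, hsum1, hsum1]
    constructor
    · intro hab
      have h1 := h _ _ (hsingle i (a + b) hab) (hadd a ha b hb) (by rw [hsum1, hs]) j
        (Pi.single_eq_of_ne (Ne.symm hij) _)
      rw [Pi.add_apply, Pi.single_eq_same, Pi.single_eq_of_ne (Ne.symm hij), zero_add] at h1
      exact hne hb h1
    · intro hab
      have h1 := h _ _ (hsingle j (a + b) hab) (hadd a ha b hb) (by rw [hsum1, hs]) i
        (Pi.single_eq_of_ne hij _)
      rw [Pi.add_apply, Pi.single_eq_same, Pi.single_eq_of_ne hij, add_zero] at h1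
      exact hne ha h1

end Pool.Agent.X90.DB
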