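import Pool.Agent.X90.DB.Step

/-!
# Few relations with arbitrary constants in general position
-/

set_option autoImplicit false

namespace Pool.Agent.X90.DB

open Finset Pool.Agent.Y760.ZF
open Pool.Agent.Y760.ZG (mz)

lemma mrg_zero {L L' : Set ℕ} (h : (0 : ℕ) ∉ L) (h' : (0 : ℕ) ∉ L') : (0 : ℕ) ∉ mrg L L' := by
  rintro (h0 | h0 | ⟨b, hb, c, _, h0⟩)
  · exact h h0
  · exact h' h0
  · have : b = 0 := by omega
    exact h (this ▸ hb)

/-- **elimination of all the constants**: at most `3 ^ M - 1` relations in general position -/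
theorem no_many (M : ℕ) : ∀ (R r : ℕ) (κ C : ℝ), 0 ≤ κ → 1 ≤ C → ∃ n0 : ℕ, ∀ n : ℕ, n0 ≤ n →
    ∀ v : Fin (M + 1) → ℂ, LinearIndependent ℚ v → ∀ (I : Type) [Fintype I] [DecidableEq I]
    (L : I → Set ℕ), 3 ^ M ≤ Fintype.card I → GP L → (∀ i, (0 : ℕ) ∉ L i) →
    ¬ ∀ i, Bd n (M + 1) R r κ C v (L i) := by
  classical
  induction M with
  | zero =>
    intro R r κ C _ _
    obtain ⟨n0, h⟩ := pure_zero R r κ C
    refine ⟨n0, fun n hn v hv I _ _ L hI _ _ hall => ?_⟩
    rw [pow_zero] at hI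
    obtain ⟨i⟩ : Nonempty I := Fintype.card_pos_iff.1 (by omega)
    obtain ⟨W, a, hR, hW, haC, ⟨w, hw, μ, hne⟩, hrel⟩ := hall i
    have hμ : μ = 0 := Subsingleton.elim (α := Fin 1) μ 0
    subst hμ
    refine hne (h n hn W hR (fun w hw => ⟨(hW w hw).1, (hW w hw).2.1⟩) (fun w => a w 0)
      (fun w hw => haC w hw 0) ?_ w hw)
    have h1 : v 0 * ∑ w ∈ W, (a w 0 : ℂ) * (mz w : ℂ) = 0 := by
      rw [← hrel, mul_sum]
      refine sum_congr rfl fun w _ => ?_
      have h2 : (∑ μ : Fin (0 + 1), (a w μ : ℂ) * v μ) = (a w 0 : ℂ) * v 0 :=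
        Fin.sum_univ_one (fun μ : Fin 1 => (a w μ : ℂ) * v μ)
      rw [h2]
      ring
    exact (mul_eq_zero.1 h1).resolve_left (hv.ne_zero 0)
  | succ M ih =>
    intro R r κ C hκ hC
    obtain ⟨n1, h1⟩ := ih R r κ C hκ hC
    obtain ⟨n2, h2⟩ := pair_step M R r κ C hκ hC
    have hC' : (1 : ℝ) ≤ ((R * (R * (2 * 3 ^ (r + r))) + 1) * C ^ 2) := by
      refine one_le_mul_of_one_le_of_one_le ?_ (one_le_pow₀ hC)
      exact le_add_of_nonneg_left (by positivity)
    obtain ⟨n3, h3⟩ := ih (R * (R * 3 ^ (r + r))) (r + r) (κ + κ)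
      ((R * (R * (2 * 3 ^ (r + r))) + 1) * C ^ 2) (by linarith) hC'
    refine ⟨n1 + n2 + n3, fun n hn v hv I _ _ L hI hGP h0 hall => ?_⟩
    have hv' : LinearIndependent ℚ (fun j : Fin (M + 1) => v j.castSucc) :=
      hv.comp _ (Fin.castSucc_injective _)
    set A : Finset I := univ.filter fun i =>
      Bd n (M + 1) R r κ C (fun j : Fin (M + 1) => v j.castSucc) (L i) with hA
    have hmA : ∀ i, i ∈ A ↔ Bd n (M + 1) R r κ C (fun j : Fin (M + 1) => v j.castSucc) (L i) := by
      intro i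
      rw [hA, mem_filter]
      exact ⟨fun h => h.2, fun h => ⟨mem_univ _, h⟩⟩
    clear_value A
    rcases le_or_gt (3 ^ M) A.card with hc | hc
    · refine h1 n (by omega) _ hv' A (fun i => L i.1) (by rwa [Fintype.card_coe])
        (hGP.comp (fun i : A => i.1) Subtype.val_injective) (fun i => h0 _) fun i => ?_
      exact (hmA _).1 i.2
    · have hcard : Fintype.card (Fin (3 ^ M) × Bool) ≤ Fintype.card (Aᶜ : Finset I) := by
        rw [Fintype.card_prod, Fintype.card_fin, Fintype.card_bool, Fintype.card_coe, card_compl]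
        rw [pow_succ] at hI
        omega
      obtain ⟨φ⟩ := Function.Embedding.nonempty_of_card_le hcard
      have hφ : Function.Injective (fun p => ((φ p : (Aᶜ : Finset I)) : I)) :=
        Subtype.val_injective.comp φ.injective
      have hnb : ∀ p, ¬ Bd n (M + 1) R r κ C (fun j : Fin (M + 1) => v j.castSucc)
          (L (φ p : (Aᶜ : Finset I)).1) := by
        intro p hb
        have := (φ p).2
        rw [mem_compl] at this
        exact this ((hmA _).2 hb)
      have hGP1 := hGP.comp (fun p => ((φ p : (Aᶜ : Finset I)) : I)) hφ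
      have hGP2 := hGP1.pair (fun p => h0 _)
      refine h3 n (by omega) _ hv' (Fin (3 ^ M)) _ (by rw [Fintype.card_fin]) hGP2
        (fun j => mrg_zero (h0 _) (h0 _)) fun j => ?_
      refine h2 n (by omega) v hv _ _ ?_ (hall _) (hall _) (hnb _) (hnb _)
      exact hGP1.sep (fun p => h0 _) (i := (j, false)) (j := (j, true)) (by
        intro h
        exact Bool.noConfusion (congrArg Prod.snd h))

end Pool.Agent.X90.DB
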