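import Pool.Agent.X90.DB.App

/-!
# From polynomials to relations between multiple zeta values
-/

set_option autoImplicit false

namespace Pool.Agent.X90.DB

open Finset Pool.Agent.Y760.ZF
open Pool.Agent.Y760.ZG (mz)
open Pool.Agent.X90.DA (fx eval_sum)

section

variable {t k r D M : ℕ}

/-- the coefficients of the relation -/
noncomputable def cf (P : MvPolynomial (Fin t ⊕ Fin r) ℤ) (ρ : (Fin t → Fin (D + 1)) → Fin (M + 1) → ℤ)
    (W : Fin r → List ℕ) (x : List ℕ) (μ : Fin (M + 1)) : ℤ :=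
  ∑ e : Fin r → Fin (D + 1), (∑ m : Fin t → Fin (D + 1), P.coeff (fx (Sum.elim m e)) * ρ m μ) *
    ((stil (lst W fun i => (e i : ℕ))).countP (· = x) : ℤ)

/-- the words of the relation -/
def La (D : ℕ) (W : Fin r → List ℕ) : Finset (List ℕ) :=
  (univ : Finset (Fin r → Fin (D + 1))).biUnion fun e => (stil (lst W fun i => (e i : ℕ))).toFinset

/-- the value of the polynomial -/
lemma val_eq {A : Type} [CommRing A] [Algebra ℂ A] {P : MvPolynomial (Fin t ⊕ Fin r) ℤ}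
    (hP : P.totalDegree ≤ D) {x : Fin t → ℂ} {v : Fin (M + 1) → ℂ} {Δ : ℕ}
    {ρ : (Fin t → Fin (D + 1)) → Fin (M + 1) → ℤ}
    (hρ : ∀ m : Fin t → Fin (D + 1), (Δ : ℂ) * ∏ j, x j ^ ((m j : Fin (D + 1)) : ℕ) =
      ∑ μ, (ρ m μ : ℂ) * v μ)
    (W : Fin r → List ℕ) (Z : List ℕ → A)
    (hZ : ∀ e : Fin r → Fin (D + 1), ∏ i, Z (W i) ^ ((e i : Fin (D + 1)) : ℕ) =
      ((stil (lst W fun i => (e i : ℕ))).map Z).sum) :
    (Δ : A) * MvPolynomial.aeval (Sum.elim (fun j => algebraMap ℂ A (x j)) fun i => Z (W i)) P =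
      ∑ w ∈ La D W, (∑ μ, (cf P ρ W w μ : A) * algebraMap ℂ A (v μ)) * Z w := by
  classical
  rw [eval_sum hP, mul_sum]
  have h1 : ∀ e : Fin r → Fin (D + 1), ((stil (lst W fun i => (e i : ℕ))).map Z).sum =
      ∑ w ∈ La D W, (((stil (lst W fun i => (e i : ℕ))).countP (· = w) : ℕ) : A) * Z w := by
    intro e
    refine list_countA _ _ _ fun w hw => ?_
    rw [La, mem_biUnion]
    exact ⟨e, mem_univ _, List.mem_toFinset.2 hw⟩
  have h2 : ∀ m : Fin t → Fin (D + 1),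
      (Δ : A) * ∏ j, (algebraMap ℂ A (x j)) ^ ((m j : Fin (D + 1)) : ℕ) =
      ∑ μ, (ρ m μ : A) * algebraMap ℂ A (v μ) := by
    intro m
    have h3 := congrArg (algebraMap ℂ A) (hρ m)
    rw [map_mul, map_natCast, map_prod, map_sum] at h3
    simp only [map_pow, map_mul, map_intCast] at h3
    exact h3
  calc ∑ e : Fin r → Fin (D + 1), (Δ : A) * ((∑ m : Fin t → Fin (D + 1),
        ((P.coeff (fx (Sum.elim m e)) : ℤ) : A) *
          ∏ j, (algebraMap ℂ A (x j)) ^ ((m j : Fin (D + 1)) : ℕ)) *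
        ∏ i, Z (W i) ^ ((e i : Fin (D + 1)) : ℕ)) =
      ∑ e : Fin r → Fin (D + 1), ∑ w ∈ La D W, (∑ μ, ((∑ m : Fin t → Fin (D + 1),
        ((P.coeff (fx (Sum.elim m e)) : ℤ) : A) * (ρ m μ : A)) *
          (((stil (lst W fun i => (e i : ℕ))).countP (· = w) : ℕ) : A)) * algebraMap ℂ A (v μ)) *
          Z w := by
        refine sum_congr rfl fun e _ => ?_
        rw [hZ e, h1 e, ← mul_assoc, mul_sum, mul_sum]
        refine sum_congr rfl fun w _ => ?_
        have h4 : (∑ m : Fin t → Fin (D + 1), (Δ : A) * (((P.coeff (fx (Sum.elim m e)) : ℤ) : A) *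
            ∏ j, (algebraMap ℂ A (x j)) ^ ((m j : Fin (D + 1)) : ℕ))) =
            ∑ μ, (∑ m : Fin t → Fin (D + 1),
              ((P.coeff (fx (Sum.elim m e)) : ℤ) : A) * (ρ m μ : A)) * algebraMap ℂ A (v μ) := by
          simp only [sum_mul]
          rw [sum_comm]
          refine sum_congr rfl fun m _ => ?_
          rw [mul_left_comm, h2 m, mul_sum]
          exact sum_congr rfl fun μ _ => by ring
        rw [h4, sum_mul, sum_mul]
        refine sum_congr rfl fun μ _ => ?_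
        ring
    _ = _ := by
        rw [sum_comm]
        refine sum_congr rfl fun w _ => ?_
        rw [← sum_mul]
        congr 1
        rw [sum_comm]
        refine sum_congr rfl fun μ _ => ?_
        rw [← sum_mul]
        congr 1
        unfold cf
        push_cast
        rfl

end

/-- letters of an index -/
lemma ix_Lt {k K0 : ℕ} (s : Fin k → ℕ) {w : List (ℕ × (Fin k → ℕ))} (hw : ∀ u ∈ w, u.2 ≠ 0)
    (hK0 : ∀ u ∈ w, u.1 ≤ K0 ∧ ∀ j, u.2 j ≤ K0) : ∀ a ∈ ix s w, a ∈ Lt K0 s := by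
  intro a ha
  rw [ix, List.mem_map] at ha
  obtain ⟨u, hu, rfl⟩ := ha
  exact ⟨u.1, u.2, (hK0 u hu).1, (hK0 u hu).2, hw u hu, rfl⟩

lemma Lt_le {k K N κ : ℕ} {s : Fin k → ℕ} (hs : ∀ j, s j ≤ κ * N) (hN : 1 ≤ N) {a : ℕ}
    (h : a ∈ Lt K s) : a ≤ K * (1 + k * κ) * N := by
  obtain ⟨b, u, hb, hu, _, rfl⟩ := h
  have h1 : ∑ j, u j * s j ≤ ∑ _j : Fin k, K * (κ * N) :=
    sum_le_sum fun j _ => Nat.mul_le_mul (hu j) (hs j)
  rw [sum_const, card_univ, Fintype.card_fin, smul_eq_mul] at h1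
  have h2 : K ≤ K * N := Nat.le_mul_of_pos_right _ hN
  calc b + ∑ j, u j * s j ≤ K * N + k * (K * (κ * N)) := by omega
    _ = K * (1 + k * κ) * N := by ring

lemma ix_Cl {k K0 ℓ N κ : ℕ} {s : Fin k → ℕ} (hs : ∀ j, N ≤ s j ∧ s j ≤ κ * N) (hN : 1 ≤ N)
    {w : List (ℕ × (Fin k → ℕ))} (hw : ∀ u ∈ w, u.2 ≠ 0)
    (hK0 : ∀ u ∈ w, u.1 ≤ K0 ∧ ∀ j, u.2 j ≤ K0) (hℓ : w.length ≤ ℓ) :
    Cl N ((K0 * (1 + k * κ) : ℕ) * (N : ℝ)) ℓ (ix s w) := by
  refine ⟨by rw [ix, List.length_map]; exact hℓ, fun m hm => ?_, fun m hm => ?_⟩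
  · have h1 := ix_Lt s hw hK0 m hm
    have h2 := Lt_ge (fun j => (hs j).1) h1
    have h3 := Lt_le (fun j => (hs j).2) hN h1
    exact ⟨by omega, by exact_mod_cast h3⟩
  · exact Lt_ge (fun j => (hs j).1) (ix_Lt s hw hK0 m (List.mem_of_mem_head? hm))

lemma ix_Ad {k K0 N : ℕ} {s : Fin k → ℕ} (hs : ∀ j, N ≤ s j) (hN : 2 ≤ N)
    {w : List (ℕ × (Fin k → ℕ))} (hne : w ≠ []) (hw : ∀ u ∈ w, u.2 ≠ 0)
    (hK0 : ∀ u ∈ w, u.1 ≤ K0 ∧ ∀ j, u.2 j ≤ K0) : Ad (ix s w) := by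
  have h1 : ∀ a ∈ ix s w, N ≤ a := fun a ha => Lt_ge hs (ix_Lt s hw hK0 a ha)
  cases w with
  | nil => exact absurd rfl hne
  | cons u w =>
    rw [ix, List.map_cons] at h1 ⊢
    exact ⟨hN.trans (h1 _ List.mem_cons_self), fun a ha =>
      le_trans (by omega) (h1 a (List.mem_cons_of_mem _ ha))⟩

/-- **the dichotomy** -/
theorem dich (t k r D : ℕ) (w : Fin r → List (ℕ × (Fin k → ℕ)))
    (hne : ∀ i, w i ≠ []) (hw : ∀ i, ∀ u ∈ w i, u.2 ≠ 0) (κ K0 ℓ : ℕ)
    (hK0 : ∀ i, ∀ u ∈ w i, u.1 ≤ K0 ∧ ∀ j, u.2 j ≤ K0) (hℓ : ∀ i, (w i).length ≤ ℓ) (C : ℝ)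
    (x : Fin t → ℂ) :
    ∃ (M : ℕ) (_ : M + 1 ≤ (D + 1) ^ t) (v : Fin (M + 1) → ℂ) (_ : LinearIndependent ℚ v)
      (C' : ℝ) (_ : 1 ≤ C'), ∀ N : ℕ, r * D * ℓ + 2 ≤ N → ∀ s : Fin k → ℕ,
      (∀ j, N ≤ s j ∧ s j ≤ κ * N) → ∀ P : MvPolynomial (Fin t ⊕ Fin r) ℤ, P.totalDegree ≤ D →
      (∀ m, |((P.coeff m : ℤ) : ℝ)| ≤ C ^ N) →
      MvPolynomial.aeval (Sum.elim x fun i => ((mz (ix s (w i)) : ℝ) : ℂ)) P = 0 →
      Bd N (M + 1) ((D + 1) ^ r * (3 ^ (r * D * ℓ)) ^ (r * D)) (r * D * ℓ)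
        ((r * D * (K0 * (1 + k * κ)) : ℕ) : ℝ) C' v (Lt (r * D * K0) s) ∨
      ∀ (A : Type) [CommRing A] [Algebra ℂ A] (Z : List ℕ → A),
        (∀ u v, Ad u → Ad v → Z u * Z v = ((sti u v).map Z).sum) →
        MvPolynomial.aeval (Sum.elim (fun j => algebraMap ℂ A (x j)) fun i => Z (ix s (w i))) P = 0 := by
  classical
  obtain ⟨M, hM, v, hv, Δ, hΔ, ρ, hρ⟩ := DA.indep
    (fun m : Fin t → Fin (D + 1) => ∏ j, x j ^ ((m j : Fin (D + 1)) : ℕ)) ⟨0, by simp⟩
  rw [Fintype.card_fun, Fintype.card_fin, Fintype.card_fin] at hM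
  set S : ℕ := (3 ^ (r * D * ℓ)) ^ (r * D) with hS
  set Sρ : ℝ := ∑ m : Fin t → Fin (D + 1), ∑ μ, |(ρ m μ : ℝ)| with hSρ
  have hSρ0 : 0 ≤ Sρ := by positivity
  set C1 : ℝ := ((D + 1) ^ r * S * Sρ + 1) with hC1
  have hC11 : 1 ≤ C1 := by
    rw [hC1]
    exact le_add_of_nonneg_left (by positivity)
  have hC0 : 0 ≤ |C| := abs_nonneg C
  refine ⟨M, hM, v, hv, C1 * (1 + |C|), by nlinarith, fun N hN s hs P hPD hPC hP0 => ?_⟩
  have hN1 : 1 ≤ N := by omega
  set W : Fin r → List ℕ := fun i => ix s (w i) with hW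
  -- the monomials
  have hlen : ∀ e : Fin r → Fin (D + 1), (lst W fun i => (e i : ℕ)).length ≤ r * D := by
    intro e
    rw [length_lst]
    calc ∑ i, ((e i : Fin (D + 1)) : ℕ) ≤ ∑ _i : Fin r, D :=
          sum_le_sum fun i _ => Nat.lt_succ_iff.1 (e i).2
      _ = r * D := by simp
  have hCl : ∀ e : Fin r → Fin (D + 1), ∀ u ∈ lst W fun i => (e i : ℕ),
      Cl N ((K0 * (1 + k * κ) : ℕ) * (N : ℝ)) ℓ u := by
    intro e u hu
    obtain ⟨i, rfl⟩ := mem_lst hu
    exact ix_Cl hs hN1 (hw i) (hK0 i) (hℓ i)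
  have hcnt : ∀ e : Fin r → Fin (D + 1), (stil (lst W fun i => (e i : ℕ))).length ≤ S := by
    intro e
    refine (stil_count ℓ _ fun u hu => (hCl e u hu).1).2.trans ?_
    rw [hS]
    refine (Nat.pow_le_pow_left (Nat.pow_le_pow_right (by omega)
      (Nat.mul_le_mul_right ℓ (hlen e))) _).trans ?_
    exact Nat.pow_le_pow_right (Nat.one_le_pow _ _ (by omega)) (hlen e)
  have hval := val_eq (A := ℂ) hPD hρ W (fun u => ((mz u : ℝ) : ℂ)) (fun e => by
    have h1 := mz_prod (by positivity) _ (hCl e) (by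
      have := Nat.mul_le_mul_right ℓ (hlen e)
      omega)
    rw [prod_lst] at h1
    have h2 := congrArg (fun y : ℝ => (y : ℂ)) h1
    push_cast at h2
    rw [h2]
    generalize stil (lst W fun i => (e i : ℕ)) = T
    induction T with
    | nil => simp
    | cons a T ih => simp [ih])
  simp only [Algebra.algebraMap_self, RingHom.id_apply] at hval
  rw [hP0, mul_zero] at hval
  by_cases hz : ∃ y ∈ La D W, ∃ μ, cf P ρ W y μ ≠ 0
  · left
    refine ⟨La D W, cf P ρ W, ?_, fun y hy => ?_, fun y hy μ => ?_, hz, hval.symm⟩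
    · rw [La]
      calc (univ.biUnion fun e : Fin r → Fin (D + 1) =>
            (stil (lst W fun i => (e i : ℕ))).toFinset).card ≤
          ∑ e : Fin r → Fin (D + 1), (stil (lst W fun i => (e i : ℕ))).toFinset.card :=
            card_biUnion_le
        _ ≤ ∑ _e : Fin r → Fin (D + 1), S :=
            sum_le_sum fun e _ => (List.toFinset_card_le _).trans (hcnt e)
        _ = (D + 1) ^ r * S := by simp
    · rw [La, mem_biUnion] at hy
      obtain ⟨e, -, hy⟩ := hy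
      rw [List.mem_toFinset] at hy
      have h1 := stil_Cl (by positivity) _ (hCl e) y hy
      have h2 := hlen e
      refine ⟨h1.1.trans (Nat.mul_le_mul_right _ h2), ⟨fun m hm => ⟨(h1.2.1 m hm).1, ?_⟩,
        h1.2.2⟩, fun a ha => ?_⟩
      · refine (h1.2.1 m hm).2.trans ?_
        have h3 : (((lst W fun i => (e i : ℕ)).length : ℕ) : ℝ) ≤ ((r * D : ℕ) : ℝ) := by
          exact_mod_cast h2
        calc (((lst W fun i => (e i : ℕ)).length : ℕ) : ℝ) * (((K0 * (1 + k * κ) : ℕ) : ℝ) * N) ≤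
            ((r * D : ℕ) : ℝ) * (((K0 * (1 + k * κ) : ℕ) : ℝ) * N) :=
              mul_le_mul_of_nonneg_right h3 (by positivity)
          _ = _ := by push_cast; ring
      · have h3 := stil_Lt (lst W fun i => (e i : ℕ)) (K := K0) (s := s) (fun u hu => by
          obtain ⟨i, rfl⟩ := mem_lst hu
          exact ix_Lt s (hw i) (hK0 i)) y hy a ha
        exact Lt_mono (Nat.mul_le_mul_right _ h2) s h3
    · -- heights
      have hCN : ∀ m, |((P.coeff m : ℤ) : ℝ)| ≤ |C| ^ N := fun m =>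
        (hPC m).trans ((le_abs_self _).trans (abs_pow _ _).le)
      unfold cf
      push_cast
      calc |∑ e : Fin r → Fin (D + 1), (∑ m : Fin t → Fin (D + 1),
            ((P.coeff (fx (Sum.elim m e)) : ℤ) : ℝ) * (ρ m μ : ℝ)) *
            (((stil (lst W fun i => (e i : ℕ))).countP (· = y) : ℕ) : ℝ)| ≤
          ∑ _e : Fin r → Fin (D + 1), (|C| ^ N * Sρ) * (S : ℝ) := by
            refine (abs_sum_le_sum_abs _ _).trans (sum_le_sum fun e _ => ?_)
            rw [abs_mul, Nat.abs_cast]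
            refine mul_le_mul ?_ ?_ (Nat.cast_nonneg _) (by positivity)
            · refine (abs_sum_le_sum_abs _ _).trans ?_
              rw [hSρ, mul_sum]
              refine sum_le_sum fun m _ => ?_
              rw [abs_mul]
              refine mul_le_mul (hCN _) ?_ (abs_nonneg _) (by positivity)
              exact single_le_sum (f := fun μ => |(ρ m μ : ℝ)|) (fun _ _ => abs_nonneg _)
                (mem_univ μ)
            · exact_mod_cast List.countP_le_length.trans (hcnt e)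
        _ = ((D + 1) ^ r * S * Sρ) * |C| ^ N := by
            rw [sum_const, card_univ, Fintype.card_fun, Fintype.card_fin, Fintype.card_fin,
              nsmul_eq_mul]
            push_cast
            ring
        _ ≤ C1 * (1 + |C|) ^ N := by
            refine mul_le_mul (by rw [hC1]; linarith) ?_ (by positivity) (by linarith)
            exact pow_le_pow_left₀ hC0 (by linarith) _
        _ ≤ C1 ^ N * (1 + |C|) ^ N := by
            refine mul_le_mul_of_nonneg_right ?_ (by positivity)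
            exact le_self_pow₀ hC11 (by omega)
        _ = (C1 * (1 + |C|)) ^ N := (mul_pow _ _ _).symm
  · right
    push Not at hz
    intro A _ _ Z hZ
    have hAd : ∀ i, Ad (W i) := fun i =>
      ix_Ad (fun j => (hs j).1) (by omega) (hne i) (hw i) (hK0 i)
    have hval2 := val_eq (A := A) hPD hρ W (ex Z) (fun e => by
      rw [← prod_lst]
      exact prod_ex hZ _ fun u hu => by
        obtain ⟨i, rfl⟩ := mem_lst hu
        exact hAd i)
    rw [sum_eq_zero fun y hy => by simp [hz y hy]] at hval2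
    have h1 : (fun i => ex Z (W i)) = fun i => Z (ix s (w i)) := by
      funext i
      exact ex_ne Z (ad_ne (hAd i))
    rw [h1] at hval2
    have h2 : (Δ : A) = algebraMap ℂ A (Δ : ℂ) := (map_natCast _ _).symm
    have h3 : (Δ : ℂ) ≠ 0 := by exact_mod_cast hΔ
    calc _ = algebraMap ℂ A ((Δ : ℂ)⁻¹) * ((Δ : A) * MvPolynomial.aeval
          (Sum.elim (fun j => algebraMap ℂ A (x j)) fun i => Z (ix s (w i))) P) := by
          rw [h2, ← mul_assoc, ← map_mul, inv_mul_cancel₀ h3, map_one, one_mul]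
      _ = 0 := by rw [hval2, mul_zero]

end Pool.Agent.X90.DB
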